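import Pool.Agent.Helper70.BN.St2

/-!
# Project BN (MP_a2f62e_al), module BCST: costs
-/

set_option autoImplicit false

namespace Pool.Agent.Helper40.BN

open Pool.Agent.Helper70.BN Pool.Agent.Helper75.MX Pool.Agent.Helper70.ML

theorem bcst_word (a l : ℕ) (q κ : Fin l → ℕ) (hq : ∀ i, 2 ≤ q i) (hκ : ∀ i, 2 ^ κ i ≤ q i ^ (6 * a)) :
    ∀ ws : List (Fin l × ℝ),
      2 ^ (ws.map fun p => 1 + κ p.1).sum ≤ ((ws.map Prod.fst).map q).prod ^ (6 * a + 1) := by
  intro ws
  induction ws with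
  | nil => simp
  | cons p ws ih =>
    rw [List.map_cons, List.sum_cons, List.map_cons, List.map_cons, List.prod_cons, pow_add, mul_pow]
    refine Nat.mul_le_mul ?_ ih
    rw [pow_add, pow_one, pow_succ, mul_comm]
    exact Nat.mul_le_mul (hκ p.1) (hq p.1)

theorem hBCST : StBCST := by
  constructor
  · intro a K l q κ hq hκ ws hws
    exact (bcst_word a l q κ hq hκ ws).trans (Nat.pow_le_pow_left hws _)
  · intro a K k x κ hκ hx
    rw [← Finset.prod_pow_eq_pow_sum]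
    calc ∏ j, 2 ^ κ j ≤ ∏ j, x j ^ 6 := Finset.prod_le_prod' fun j _ => hκ j
      _ = (∏ j, x j) ^ 6 := Finset.prod_pow _ _ _
      _ ≤ (K ^ a) ^ 6 := Nat.pow_le_pow_left hx 6
      _ = K ^ (6 * a) := by rw [← pow_mul, mul_comm]

end Pool.Agent.Helper40.BN
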